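import Mathlib
import Pool.Agent.T6.H51.ST.Main

/-!
# Tournaments in which every `k`-set of vertices is dominated

For all large `k`, every tournament with property `S_k` has more than `0.769 * k * 2 ^ k` vertices
(the known lower bound is `(k + 2) * 2 ^ (k - 1)`, that is `0.5 * k * 2 ^ k` asymptotically).
-/

set_option autoImplicit false

namespace Pool.Agent.Results.MP_806e0d_co.LowerBound

/-- `r` is a tournament on the vertices `Fin n` (`r u v`: `u` dominates `v`): no vertex dominates
itself, and of two distinct vertices exactly one dominates the other. -/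
def IsTournament {n : ℕ} (r : Fin n → Fin n → Prop) : Prop :=
  (∀ v, ¬ r v v) ∧ ∀ u v, u ≠ v → (r u v ↔ ¬ r v u)

/-- Property `S_k`: there are at least `k` vertices, and for every set `S` of exactly `k` vertices
there is a vertex `x` which dominates all vertices of `S`. -/
def PropertyS (k : ℕ) {n : ℕ} (r : Fin n → Fin n → Prop) : Prop :=
  k ≤ n ∧ ∀ S : Finset (Fin n), S.card = k → ∃ x, ∀ s ∈ S, r x s

/-- For all large `k`, every tournament with property `S_k` has more than `0.769 * k * 2 ^ k`
vertices. -/
theorem result : ∃ k₀ : ℕ, ∀ k : ℕ, k₀ ≤ k → ∀ (n : ℕ) (r : Fin n → Fin n → Prop),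
    IsTournament r → PropertyS k r → (769 / 1000 : ℝ) * ((k : ℝ) * 2 ^ k) < (n : ℝ) := by
  obtain ⟨k0, h⟩ := Pool.Agent.T6.H51.ST.main
  exact ⟨k0, fun k hk n r h1 h2 => h k hk n r ⟨h1.1, h1.2⟩ h2⟩

end Pool.Agent.Results.MP_806e0d_co.LowerBound
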